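import Pool.Agent.Helper49.RC.St
import Pool.Agent.Helper49.LT.Base
import Pool.Agent.Helper11.RC.KA

/-!
# Project RC, module HFO: the area inequality in Fourier form

The support function `h(t) = sp K (ee t)` is averaged twice over an interval of length `2ε`; the
result (plus a small constant) is a `C²` function `g ≥ h` with `g + g'' ≥ 0`, so the area bound of
`Helper11.RC.area_le` applies to it. Parseval's identity for `g` and `g'` and the limit `ε → 0` give
the claim.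
-/

set_option autoImplicit false

open MeasureTheory Set Filter Metric

namespace Pool.Agent.Helper27.RC

open Helper97.CB Helper49.LT Helper49.RC

/-! ## the support functional -/

theorem sp_bdd {K : Set ℂ} (hK : IsBody K) (p : ℂ) :
    BddAbove ((fun z : ℂ => (z * (starRingEnd ℂ) p).re) '' K) := by
  have hc : Continuous (fun z : ℂ => (z * (starRingEnd ℂ) p).re) :=
    Complex.continuous_re.comp (continuous_id.mul continuous_const)
  exact (hK.2.1.image hc).bddAbove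

theorem le_sp {K : Set ℂ} (hK : IsBody K) (p z : ℂ) (hz : z ∈ K) :
    (z * (starRingEnd ℂ) p).re ≤ sp K p := le_csSup (sp_bdd hK p) ⟨z, hz, rfl⟩

theorem sp_le {K : Set ℂ} (hn : K.Nonempty) (p : ℂ) (c : ℝ)
    (h : ∀ z ∈ K, (z * (starRingEnd ℂ) p).re ≤ c) : sp K p ≤ c := by
  refine csSup_le (hn.image _) ?_
  rintro _ ⟨z, hz, rfl⟩
  exact h z hz

theorem sp_lip {K : Set ℂ} (hK : IsBody K) (hn : K.Nonempty) :
    ∃ R : ℝ, 0 < R ∧ ∀ x y, sp K x ≤ sp K y + R * ‖x - y‖ := by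
  obtain ⟨R, hR, hb⟩ := hK.2.1.isBounded.exists_pos_norm_le
  refine ⟨R, hR, fun x y => sp_le hn x _ ?_⟩
  intro z hz
  have h1 := le_sp hK y z hz
  have h2 : (z * (starRingEnd ℂ) x).re =
      (z * (starRingEnd ℂ) y).re + (z * (starRingEnd ℂ) (x - y)).re := by
    rw [map_sub, mul_sub, Complex.sub_re]; ring
  have h3 : (z * (starRingEnd ℂ) (x - y)).re ≤ R * ‖x - y‖ := by
    refine (Complex.re_le_norm _).trans ?_
    rw [norm_mul, Complex.norm_conj]
    exact mul_le_mul_of_nonneg_right (hb z hz) (norm_nonneg _)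
  linarith

theorem sp_cont {K : Set ℂ} (hK : IsBody K) (hn : K.Nonempty) : Continuous (sp K) := by
  obtain ⟨R, hR, h⟩ := sp_lip hK hn
  exact (LipschitzWith.of_le_add_mul ⟨R, hR.le⟩
    (fun x y => by rw [dist_eq_norm]; exact h x y)).continuous

theorem sp_uc {K : Set ℂ} (hK : IsBody K) (hn : K.Nonempty) (δ : ℝ) (hδ : 0 < δ) :
    ∃ η : ℝ, 0 < η ∧ ∀ s t : ℝ, |s - t| < η → |sp K (ee s) - sp K (ee t)| ≤ δ := by
  obtain ⟨R, hR, h⟩ := sp_lip hK hn
  have hc : ContinuousAt (fun s : ℝ => R * ‖ee s - 1‖) 0 := by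
    have := continuous_ee
    fun_prop
  have h0 : R * ‖ee 0 - 1‖ < δ := by rw [ee_zero]; simpa using hδ
  obtain ⟨η, hη, hb⟩ := Metric.eventually_nhds_iff.1 (hc.eventually (gt_mem_nhds h0))
  refine ⟨η, hη, ?_⟩
  have key : ∀ s t : ℝ, |s - t| < η → sp K (ee s) ≤ sp K (ee t) + δ := by
    intro s t hst
    have h1 := h (ee s) (ee t)
    have h2 : ‖ee s - ee t‖ = ‖ee (s - t) - 1‖ := by
      have : ee s - ee t = ee t * (ee (s - t) - 1) := by
        rw [mul_sub, ← ee_add, mul_one]; congr 2; ring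
      rw [this, norm_mul, norm_ee, one_mul]
    have h3 := hb (y := s - t) (by simpa using hst)
    rw [h2] at h1
    linarith
  intro s t hst
  rw [abs_le]
  constructor
  · have := key t s (by rw [abs_sub_comm]; exact hst)
    linarith
  · have := key s t hst
    linarith

theorem sp_conv {K : Set ℂ} (hK : IsBody K) (hn : K.Nonempty) (a t : ℝ) (ha : 0 < Real.cos a) :
    2 * Real.cos a * sp K (ee t) ≤ sp K (ee (t + a)) + sp K (ee (t - a)) := by
  have h : sp K (ee t) ≤ (sp K (ee (t + a)) + sp K (ee (t - a))) / (2 * Real.cos a) := by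
    refine sp_le hn _ _ ?_
    intro z hz
    rw [le_div_iff₀ (by positivity)]
    have h1 := le_sp hK (ee (t + a)) z hz
    have h2 := le_sp hK (ee (t - a)) z hz
    have h3 : (z * (starRingEnd ℂ) (ee t)).re * (2 * Real.cos a) =
        (z * (starRingEnd ℂ) (ee (t + a))).re + (z * (starRingEnd ℂ) (ee (t - a))).re := by
      simp only [Complex.mul_re, Complex.conj_re, Complex.conj_im, ee_re, ee_im, Real.cos_add,
        Real.cos_sub, Real.sin_add, Real.sin_sub]
      ring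
    rw [h3]
    exact add_le_add h1 h2
  rw [le_div_iff₀ (by positivity)] at h
  linarith

/-! ## averages -/

noncomputable def av (ε : ℝ) (f : ℝ → ℝ) (t : ℝ) : ℝ :=
  ((∫ s in (0 : ℝ)..(t + ε), f s) - ∫ s in (0 : ℝ)..(t - ε), f s) / (2 * ε)

theorem prim_deriv (f : ℝ → ℝ) (hf : Continuous f) (x : ℝ) :
    HasDerivAt (fun x => ∫ s in (0 : ℝ)..x, f s) (f x) x :=
  intervalIntegral.integral_hasDerivAt_right (hf.intervalIntegrable _ _)
      (hf.stronglyMeasurableAtFilter _ _) hf.continuousAt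

theorem av_deriv (ε : ℝ) (f : ℝ → ℝ) (hf : Continuous f) (t : ℝ) :
    HasDerivAt (av ε f) ((f (t + ε) - f (t - ε)) / (2 * ε)) t := by
  have h1 : HasDerivAt (fun t => ∫ s in (0 : ℝ)..(t + ε), f s) (f (t + ε)) t :=
    (prim_deriv f hf (t + ε)).comp_add_const t ε
  have h2 : HasDerivAt (fun t => ∫ s in (0 : ℝ)..(t - ε), f s) (f (t - ε)) t :=
    (prim_deriv f hf (t - ε)).comp_sub_const t ε
  exact (h1.sub h2).div_const _

theorem av_cont (ε : ℝ) (f : ℝ → ℝ) (hf : Continuous f) : Continuous (av ε f) :=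
  continuous_iff_continuousAt.2 (fun t => (av_deriv ε f hf t).continuousAt)

theorem av_mem (ε : ℝ) (hε : 0 < ε) (f : ℝ → ℝ) (hf : Continuous f) (t : ℝ) :
    ∃ s, |s - t| < ε ∧ av ε f t = f s := by
  obtain ⟨c, hc, he⟩ := exists_hasDerivAt_eq_slope (fun x => ∫ s in (0 : ℝ)..x, f s) f
    (show t - ε < t + ε by linarith)
    (fun x _ => (prim_deriv f hf x).continuousAt.continuousWithinAt) (fun x _ => prim_deriv f hf x)
  refine ⟨c, ?_, ?_⟩
  · rw [abs_lt]; constructor <;> linarith [hc.1, hc.2]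
  · rw [he, av]; congr 1; ring

theorem av_per (ε : ℝ) (f : ℝ → ℝ) (hf : Continuous f) (per : ∀ t, f (t + 2 * Real.pi) = f t) (t : ℝ) :
    av ε f (t + 2 * Real.pi) = av ε f t := by
  unfold av
  congr 1
  rw [intervalIntegral.integral_interval_sub_left (hf.intervalIntegrable _ _) (hf.intervalIntegrable _ _),
    intervalIntegral.integral_interval_sub_left (hf.intervalIntegrable _ _) (hf.intervalIntegrable _ _)]
  have h := intervalIntegral.integral_comp_add_right f (a := t - ε) (b := t + ε) (2 * Real.pi)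
  simp only [per] at h
  rw [h]
  congr 1 <;> ring

/-- the smooth majorant -/
theorem smooth (h : ℝ → ℝ) (hc : Continuous h) (per : ∀ t, h (t + 2 * Real.pi) = h t)
    (h0 : ∀ t, 0 ≤ h t)
    (cv : ∀ a t, 0 < Real.cos a → 2 * Real.cos a * h t ≤ h (t + a) + h (t - a))
    (uc : ∀ δ : ℝ, 0 < δ → ∃ η : ℝ, 0 < η ∧ ∀ s t, |s - t| < η → |h s - h t| ≤ δ)
    (δ : ℝ) (hδ : 0 < δ) :
    ∃ g g1 g2 : ℝ → ℝ, (∀ t, HasDerivAt g (g1 t) t) ∧ (∀ t, HasDerivAt g1 (g2 t) t) ∧
      Continuous g2 ∧ (∀ t, g (t + 2 * Real.pi) = g t) ∧ (∀ t, g1 (t + 2 * Real.pi) = g1 t) ∧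
      (∀ t, 0 < g t) ∧ (∀ t, 0 ≤ g t + g2 t) ∧ (∀ t, h t ≤ g t) ∧ (∀ t, g t ≤ h t + 3 * δ) := by
  obtain ⟨η, hη, huc⟩ := uc δ hδ
  obtain ⟨ε, hε, he1, he2⟩ : ∃ ε : ℝ, 0 < ε ∧ 2 * ε ≤ η ∧ 2 * ε ≤ 1 := by
    refine ⟨min (η / 2) (1 / 2), lt_min (by positivity) (by norm_num), ?_, ?_⟩
    · have := min_le_left (η / 2) (1 / 2 : ℝ); linarith
    · have := min_le_right (η / 2) (1 / 2 : ℝ); linarith
  have hc1 := av_cont ε h hc
  have hc2 := av_cont ε (av ε h) hc1
  have per1 := av_per ε h hc per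
  have per2 := av_per ε (av ε h) hc1 per1
  have close : ∀ t, |av ε (av ε h) t - h t| ≤ δ := by
    intro t
    obtain ⟨s, hs, e1⟩ := av_mem ε hε (av ε h) hc1 t
    obtain ⟨r, hr, e2⟩ := av_mem ε hε h hc s
    rw [e1, e2]
    refine huc r t ?_
    calc |r - t| = |(r - s) + (s - t)| := by congr 1; ring
      _ ≤ |r - s| + |s - t| := abs_add_le _ _
      _ < ε + ε := add_lt_add hr hs
      _ ≤ η := by linarith
  have d1 : ∀ t, HasDerivAt (fun t => av ε (av ε h) t + 2 * δ)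
      ((av ε h (t + ε) - av ε h (t - ε)) / (2 * ε)) t := fun t =>
    (av_deriv ε (av ε h) hc1 t).add_const _
  have d2 : ∀ t, HasDerivAt (fun t => (av ε h (t + ε) - av ε h (t - ε)) / (2 * ε))
      (((h (t + ε + ε) - h (t + ε - ε)) / (2 * ε) - (h (t - ε + ε) - h (t - ε - ε)) / (2 * ε))
        / (2 * ε)) t := by
    intro t
    have a1 := (av_deriv ε h hc (t + ε)).comp_add_const t ε
    have a2 := (av_deriv ε h hc (t - ε)).comp_sub_const t ε
    exact (a1.sub a2).div_const _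
  refine ⟨fun t => av ε (av ε h) t + 2 * δ, fun t => (av ε h (t + ε) - av ε h (t - ε)) / (2 * ε),
    fun t => ((h (t + ε + ε) - h (t + ε - ε)) / (2 * ε) -
      (h (t - ε + ε) - h (t - ε - ε)) / (2 * ε)) / (2 * ε), d1, d2, by fun_prop, ?_, ?_, ?_, ?_, ?_, ?_⟩
  · intro t
    show av ε (av ε h) (t + 2 * Real.pi) + 2 * δ = _
    rw [per2]
  · intro t
    show (av ε h (t + 2 * Real.pi + ε) - av ε h (t + 2 * Real.pi - ε)) / (2 * ε) = _
    rw [show t + 2 * Real.pi + ε = (t + ε) + 2 * Real.pi by ring,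
      show t + 2 * Real.pi - ε = (t - ε) + 2 * Real.pi by ring, per1, per1]
  · intro t
    have := abs_le.1 (close t)
    have := h0 t
    show 0 < av ε (av ε h) t + 2 * δ
    linarith
  · intro t
    have h1 := abs_le.1 (close t)
    have hcos : 0 < Real.cos (2 * ε) := Real.cos_pos_of_le_one (by rw [abs_of_pos (by positivity)]; exact he2)
    have h2 := cv (2 * ε) t hcos
    have h3 := Real.one_sub_sq_div_two_le_cos (x := 2 * ε)
    have h4 := h0 t
    show 0 ≤ av ε (av ε h) t + 2 * δ + ((h (t + ε + ε) - h (t + ε - ε)) / (2 * ε) -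
        (h (t - ε + ε) - h (t - ε - ε)) / (2 * ε)) / (2 * ε)
    have e : ((h (t + ε + ε) - h (t + ε - ε)) / (2 * ε) -
        (h (t - ε + ε) - h (t - ε - ε)) / (2 * ε)) / (2 * ε) =
        (h (t + 2 * ε) + h (t - 2 * ε) - 2 * h t) / (4 * ε ^ 2) := by
      rw [show t + ε + ε = t + 2 * ε by ring, show t + ε - ε = t by ring,
        show t - ε + ε = t by ring, show t - ε - ε = t - 2 * ε by ring]
      field_simp
      ring
    rw [e]
    have h5 : -h t ≤ (h (t + 2 * ε) + h (t - 2 * ε) - 2 * h t) / (4 * ε ^ 2) := by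
      rw [le_div_iff₀ (by positivity)]
      have h6 : (1 - Real.cos (2 * ε)) * h t ≤ (2 * ε) ^ 2 / 2 * h t :=
        mul_le_mul_of_nonneg_right (by linarith) h4
      nlinarith [h6, h2]
    linarith
  · intro t
    have h1 := abs_le.1 (close t)
    show h t ≤ av ε (av ε h) t + 2 * δ
    linarith
  · intro t
    have h1 := abs_le.1 (close t)
    show av ε (av ε h) t + 2 * δ ≤ _
    linarith

/-! ## Fourier coefficients -/

noncomputable def cf (g : ℝ → ℝ) (n : ℤ) : ℂ :=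
  fourierCoeffOn Real.two_pi_pos (fun t => (g t : ℂ)) n

theorem cf_eq (g : ℝ → ℝ) (n : ℤ) : cf g n =
    (1 / (2 * Real.pi) : ℂ) * ∫ t in (0 : ℝ)..(2 * Real.pi), (g t : ℂ) * ee (-(n : ℝ) * t) := by
  unfold cf
  rw [fourierCoeffOn_eq_integral, Complex.real_smul]
  congr 1
  · push_cast; simp
  · refine intervalIntegral.integral_congr ?_
    intro t _
    simp only [smul_eq_mul]
    rw [fourier_coe_apply, mul_comm]
    congr 1
    unfold ee
    congr 1
    have h1 : (Real.pi : ℂ) ≠ 0 := by exact_mod_cast Real.pi_ne_zero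
    push_cast
    field_simp
    ring

theorem cf_hf (K : Set ℂ) (n : ℕ) : cf (fun t => sp K (ee t)) n = hf K n := by
  rw [cf_eq, hf]
  simp

theorem cf_neg (g : ℝ → ℝ) (n : ℤ) : ‖cf g (-n)‖ = ‖cf g n‖ := by
  have h : cf g (-n) = (starRingEnd ℂ) (cf g n) := by
    have hle : (0 : ℝ) ≤ 2 * Real.pi := by positivity
    rw [cf_eq, cf_eq, map_mul, intervalIntegral.integral_of_le hle,
      intervalIntegral.integral_of_le hle, ← integral_conj]
    congr 1
    · have e2 : (1 / (2 * Real.pi) : ℂ) = ((1 / (2 * Real.pi) : ℝ) : ℂ) := by push_cast; ring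
      rw [e2, Complex.conj_ofReal]
    · refine integral_congr_ae (Filter.Eventually.of_forall ?_)
      intro t
      simp only [map_mul, Complex.conj_ofReal]
      rw [← ee_neg]
      congr 2
      push_cast
      ring
  rw [h, Complex.norm_conj]

theorem cf_close (g h : ℝ → ℝ) (hg : Continuous g) (hh : Continuous h) (δ : ℝ)
    (hd : ∀ t, |g t - h t| ≤ δ) (n : ℤ) : ‖cf g n - cf h n‖ ≤ δ := by
  have := continuous_ee
  have h1 : cf g n - cf h n = (1 / (2 * Real.pi) : ℂ) *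
      ∫ t in (0 : ℝ)..(2 * Real.pi), ((g t - h t : ℝ) : ℂ) * ee (-(n : ℝ) * t) := by
    rw [cf_eq, cf_eq, ← mul_sub, ← intervalIntegral.integral_sub]
    · congr 1
      refine intervalIntegral.integral_congr ?_
      intro t _
      push_cast
      ring
    · exact Continuous.intervalIntegrable (by fun_prop) _ _
    · exact Continuous.intervalIntegrable (by fun_prop) _ _
  have h2 : ‖∫ t in (0 : ℝ)..(2 * Real.pi), ((g t - h t : ℝ) : ℂ) * ee (-(n : ℝ) * t)‖ ≤
      δ * |2 * Real.pi - 0| := by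
    refine intervalIntegral.norm_integral_le_of_norm_le_const ?_
    intro t _
    rw [norm_mul, norm_ee, mul_one, Complex.norm_real, Real.norm_eq_abs]
    exact hd t
  have hpi := Real.pi_pos
  rw [h1, norm_mul]
  have h3 : ‖(1 / (2 * Real.pi) : ℂ)‖ = 1 / (2 * Real.pi) := by
    have : (1 / (2 * Real.pi) : ℂ) = ((1 / (2 * Real.pi) : ℝ) : ℂ) := by push_cast; ring
    rw [this, Complex.norm_real, Real.norm_eq_abs, abs_of_pos (by positivity)]
  rw [h3]
  rw [sub_zero, abs_of_pos (by positivity)] at h2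
  calc 1 / (2 * Real.pi) * _ ≤ 1 / (2 * Real.pi) * (δ * (2 * Real.pi)) :=
        mul_le_mul_of_nonneg_left h2 (by positivity)
    _ = δ := by field_simp

theorem cf_deriv (g g1 : ℝ → ℝ) (hg : ∀ t, HasDerivAt g (g1 t) t) (c1 : Continuous g1)
    (per : ∀ t, g (t + 2 * Real.pi) = g t) (n : ℤ) : ‖cf g1 n‖ ^ 2 = (n : ℝ) ^ 2 * ‖cf g n‖ ^ 2 := by
  have hp : g (2 * Real.pi) = g 0 := by simpa using per 0
  by_cases hn : n = 0
  · subst hn
    have : cf g1 0 = 0 := by
      rw [cf_eq]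
      have h1 : ∫ t in (0 : ℝ)..(2 * Real.pi), (g1 t : ℂ) * ee (-((0 : ℤ) : ℝ) * t) =
          ∫ t in (0 : ℝ)..(2 * Real.pi), (g1 t : ℂ) := by
        refine intervalIntegral.integral_congr ?_
        intro t _
        simp [ee_zero]
      rw [h1, intervalIntegral.integral_ofReal,
        intervalIntegral.integral_eq_sub_of_hasDerivAt (fun t _ => hg t) (c1.intervalIntegrable _ _),
        hp]
      simp
    rw [this]; simp
  · have h1 := fourierCoeffOn_of_hasDerivAt Real.two_pi_pos (f := fun t => (g t : ℂ))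
      (f' := fun t => (g1 t : ℂ)) hn (fun x _ => (hg x).ofReal_comp)
      ((Complex.continuous_ofReal.comp c1).intervalIntegrable _ _)
    have h2 : cf g n = 1 / (-2 * Real.pi * Complex.I * n) * (0 - (2 * Real.pi) * cf g1 n) := by
      unfold cf
      rw [h1, hp]
      push_cast
      ring
    have hn' : (n : ℂ) ≠ 0 := by exact_mod_cast hn
    have hpi : (Real.pi : ℂ) ≠ 0 := by exact_mod_cast Real.pi_ne_zero
    have h3 : cf g1 n = Complex.I * n * cf g n := by
      rw [h2]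
      field_simp
      ring
    rw [h3, norm_mul, norm_mul, Complex.norm_I, one_mul, Complex.norm_intCast, mul_pow, sq_abs]

theorem parseval (g : ℝ → ℝ) (hg : Continuous g) :
    HasSum (fun n : ℤ => ‖cf g n‖ ^ 2) (1 / (2 * Real.pi) * ∫ t in (0 : ℝ)..(2 * Real.pi), g t ^ 2) := by
  have hm : MemLp (fun t => (g t : ℂ)) 2 (volume.restrict (Ioc 0 (2 * Real.pi))) := by
    have hc : Continuous (fun t => (g t : ℂ)) := Complex.continuous_ofReal.comp hg
    obtain ⟨C, hC⟩ := (isCompact_Icc (a := (0 : ℝ)) (b := 2 * Real.pi)).exists_bound_of_continuousOn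
      hc.continuousOn
    refine MemLp.of_bound hc.aestronglyMeasurable C ?_
    refine (ae_restrict_iff' measurableSet_Ioc).2 (Filter.Eventually.of_forall ?_)
    intro t ht
    exact hC t ⟨ht.1.le, ht.2⟩
  have h := hasSum_sq_fourierCoeffOn Real.two_pi_pos hm
  have e : (2 * Real.pi - 0)⁻¹ • ∫ x in (0 : ℝ)..(2 * Real.pi), ‖(g x : ℂ)‖ ^ 2 =
      1 / (2 * Real.pi) * ∫ t in (0 : ℝ)..(2 * Real.pi), g t ^ 2 := by
    rw [smul_eq_mul, sub_zero, one_div]
    congr 1
    refine intervalIntegral.integral_congr ?_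
    intro t _
    simp only [Complex.norm_real, Real.norm_eq_abs, sq_abs]
  rw [e] at h
  exact h

/-- the area form of a smooth function -/
theorem form_le (g g1 g2 : ℝ → ℝ) (hg : ∀ t, HasDerivAt g (g1 t) t)
    (hg1 : ∀ t, HasDerivAt g1 (g2 t) t) (c2 : Continuous g2)
    (per : ∀ t, g (t + 2 * Real.pi) = g t) (per1 : ∀ t, g1 (t + 2 * Real.pi) = g1 t) (N : ℕ) :
    (1 / 2) * ∫ t in (0 : ℝ)..(2 * Real.pi), g t * (g t + g2 t) ≤
      Real.pi * (‖cf g 0‖ ^ 2 -
        2 * ∑ n ∈ Finset.range N, (((n : ℝ) + 1) ^ 2 - 1) * ‖cf g ((n : ℤ) + 1)‖ ^ 2) := by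
  have cg : Continuous g := continuous_iff_continuousAt.2 (fun t => (hg t).continuousAt)
  have c1 : Continuous g1 := continuous_iff_continuousAt.2 (fun t => (hg1 t).continuousAt)
  have hpi := Real.pi_pos
  -- integration by parts
  have ibp : ∫ t in (0 : ℝ)..(2 * Real.pi), g t * g2 t = -∫ t in (0 : ℝ)..(2 * Real.pi), g1 t ^ 2 := by
    rw [intervalIntegral.integral_mul_deriv_eq_deriv_mul (fun t _ => hg t) (fun t _ => hg1 t)
      (c1.intervalIntegrable _ _) (c2.intervalIntegrable _ _)]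
    have e1 : g (2 * Real.pi) = g 0 := by simpa using per 0
    have e2 : g1 (2 * Real.pi) = g1 0 := by simpa using per1 0
    rw [e1, e2, sub_self, zero_sub]
    congr 1
    refine intervalIntegral.integral_congr ?_
    intro t _
    show g1 t * g1 t = g1 t ^ 2
    ring
  have split : ∫ t in (0 : ℝ)..(2 * Real.pi), g t * (g t + g2 t) =
      (∫ t in (0 : ℝ)..(2 * Real.pi), g t ^ 2) - ∫ t in (0 : ℝ)..(2 * Real.pi), g1 t ^ 2 := by
    have : ∫ t in (0 : ℝ)..(2 * Real.pi), g t * (g t + g2 t) =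
        (∫ t in (0 : ℝ)..(2 * Real.pi), g t ^ 2) + ∫ t in (0 : ℝ)..(2 * Real.pi), g t * g2 t := by
      rw [← intervalIntegral.integral_add]
      · refine intervalIntegral.integral_congr ?_
        intro t _
        show g t * (g t + g2 t) = g t ^ 2 + g t * g2 t
        ring
      · exact Continuous.intervalIntegrable (by fun_prop) _ _
      · exact Continuous.intervalIntegrable (by fun_prop) _ _
    rw [this, ibp]; ring
  have hs := (parseval g cg).sub (parseval g1 c1)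
  set S : ℝ := 1 / (2 * Real.pi) * (∫ t in (0 : ℝ)..(2 * Real.pi), g t ^ 2) -
    1 / (2 * Real.pi) * (∫ t in (0 : ℝ)..(2 * Real.pi), g1 t ^ 2) with hS
  set F : ℤ → ℝ := fun n => (1 - (n : ℝ) ^ 2) * ‖cf g n‖ ^ 2 with hF
  have hsF : HasSum F S := by
    refine hs.congr_fun ?_
    intro n
    rw [cf_deriv g g1 hg c1 per n, hF]
    ring
  have hN := hsF.nat_add_neg
  have hFn : ∀ n : ℤ, F (-n) = F n := by
    intro n
    simp only [hF]
    rw [cf_neg]; push_cast; ring
  have hF0 : F 0 = ‖cf g 0‖ ^ 2 := by simp [hF]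
  have hle : ∀ n : ℕ, F ((n : ℤ) + 1) ≤ 0 := by
    intro n
    simp only [hF]
    have : (1 - (((n : ℤ) + 1 : ℤ) : ℝ) ^ 2) ≤ 0 := by
      push_cast
      nlinarith [(Nat.cast_nonneg n : (0 : ℝ) ≤ (n : ℝ))]
    exact mul_nonpos_of_nonpos_of_nonneg this (by positivity)
  have hb : S + F 0 ≤ ∑ n ∈ Finset.range (N + 1), (F n + F (-n)) := by
    have hneg := hN.neg
    have := sum_le_hasSum (Finset.range (N + 1)) ?_ hneg
    · rw [Finset.sum_neg_distrib] at this
      linarith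
    · intro n hn
      rw [Finset.mem_range, not_lt] at hn
      obtain ⟨m, rfl⟩ : ∃ m, n = m + 1 := ⟨n - 1, by omega⟩
      have h1 := hle m
      rw [hFn]
      push_cast
      linarith
  rw [Finset.sum_range_succ'] at hb
  have e : ∑ n ∈ Finset.range N, (F ((n + 1 : ℕ) : ℤ) + F (-((n + 1 : ℕ) : ℤ))) =
      -(2 * ∑ n ∈ Finset.range N, (((n : ℝ) + 1) ^ 2 - 1) * ‖cf g ((n : ℤ) + 1)‖ ^ 2) := by
    rw [Finset.mul_sum, ← Finset.sum_neg_distrib]
    refine Finset.sum_congr rfl ?_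
    intro n _
    rw [hFn]
    simp only [hF]
    push_cast
    ring
  rw [e] at hb
  have hb2 : S ≤ ‖cf g 0‖ ^ 2 -
      2 * ∑ n ∈ Finset.range N, (((n : ℝ) + 1) ^ 2 - 1) * ‖cf g ((n : ℤ) + 1)‖ ^ 2 := by
    have : F ((0 : ℕ) : ℤ) + F (-((0 : ℕ) : ℤ)) = 2 * ‖cf g 0‖ ^ 2 := by
      rw [hFn]
      simp only [Nat.cast_zero]
      rw [hF0]; ring
    rw [this, hF0] at hb
    linarith
  calc (1 / 2) * ∫ t in (0 : ℝ)..(2 * Real.pi), g t * (g t + g2 t) = Real.pi * S := by
        rw [split, hS]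
        field_simp
    _ ≤ _ := mul_le_mul_of_nonneg_left hb2 hpi.le

/-- the area inequality for the finite sums -/
theorem area_fin (K : Set ℂ) (hK : IsBody K) (h00 : (0 : ℂ) ∈ K) (N : ℕ) :
    area K ≤ Real.pi * (‖hf K 0‖ ^ 2 -
      2 * ∑ n ∈ Finset.range N, (((n : ℝ) + 1) ^ 2 - 1) * ‖hf K (n + 1)‖ ^ 2) := by
  have hn : K.Nonempty := ⟨0, h00⟩
  set h : ℝ → ℝ := fun t => sp K (ee t) with hh
  have hc : Continuous h := (sp_cont hK hn).comp continuous_ee
  have per : ∀ t, h (t + 2 * Real.pi) = h t := fun t => by simp only [hh, ee_per]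
  have hnn : ∀ t, 0 ≤ h t := fun t => by
    have := le_sp hK (ee t) 0 h00
    simpa using this
  have step : ∀ k : ℕ, ∃ g : ℝ → ℝ, (∀ n : ℤ, ‖cf g n - cf h n‖ ≤ 3 * (1 / ((k : ℝ) + 1))) ∧
      area K ≤ Real.pi * (‖cf g 0‖ ^ 2 -
        2 * ∑ n ∈ Finset.range N, (((n : ℝ) + 1) ^ 2 - 1) * ‖cf g ((n : ℤ) + 1)‖ ^ 2) := by
    intro k
    obtain ⟨g, g1, g2, d1, d2, c2, p0, p1, pos, cv, lo, up⟩ := smooth h hc per hnn
      (fun a t ha => sp_conv hK hn a t ha) (sp_uc hK hn) (1 / ((k : ℝ) + 1)) (by positivity)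
    have cg : Continuous g := continuous_iff_continuousAt.2 (fun t => (d1 t).continuousAt)
    refine ⟨g, fun n => cf_close g h cg hc _ (fun t => ?_) n, ?_⟩
    · rw [abs_le]
      have h1 := lo t
      have h2 := up t
      have h3 : (0 : ℝ) < 1 / ((k : ℝ) + 1) := by positivity
      constructor <;> linarith
    · refine (Helper11.RC.area_le K g g1 g2 d1 d2 c2 p0 pos cv ?_).trans
        (form_le g g1 g2 d1 d2 c2 p0 p1 N)
      intro x hx θ
      have h1 := le_sp hK (ee θ) x hx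
      have h2 : Complex.exp (-((θ : ℂ) * Complex.I)) = (starRingEnd ℂ) (ee θ) := by
        rw [← ee_neg]
        unfold ee
        congr 1
        push_cast
        ring
      rw [h2]
      exact h1.trans (lo θ)
  choose g hg1 hg2 using step
  have lim : ∀ n : ℤ, Tendsto (fun k => cf (g k) n) atTop (nhds (cf h n)) := by
    intro n
    rw [tendsto_iff_norm_sub_tendsto_zero]
    have h3 : Tendsto (fun k : ℕ => 3 * (1 / ((k : ℝ) + 1))) atTop (nhds 0) := by
      have := (tendsto_one_div_add_atTop_nhds_zero_nat (𝕜 := ℝ)).const_mul 3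
      simpa using this
    exact squeeze_zero (fun k => norm_nonneg _) (fun k => hg1 k n) h3
  have lim2 : Tendsto (fun k => Real.pi * (‖cf (g k) 0‖ ^ 2 -
        2 * ∑ n ∈ Finset.range N, (((n : ℝ) + 1) ^ 2 - 1) * ‖cf (g k) ((n : ℤ) + 1)‖ ^ 2)) atTop
      (nhds (Real.pi * (‖cf h 0‖ ^ 2 -
        2 * ∑ n ∈ Finset.range N, (((n : ℝ) + 1) ^ 2 - 1) * ‖cf h ((n : ℤ) + 1)‖ ^ 2))) := by
    refine Tendsto.const_mul _ (Tendsto.sub ((lim 0).norm.pow 2) (Tendsto.const_mul _ ?_))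
    exact tendsto_finsetSum _ (fun n _ => ((lim _).norm.pow 2).const_mul _)
  have hfin := ge_of_tendsto' lim2 hg2
  have e0 : cf h 0 = hf K 0 := by
    have := cf_hf K 0
    simpa using this
  have e1 : ∀ n : ℕ, cf h ((n : ℤ) + 1) = hf K (n + 1) := by
    intro n
    have := cf_hf K (n + 1)
    push_cast at this
    exact this
  rw [e0] at hfin
  simp only [e1] at hfin
  exact hfin

/-- MODULE HFO (without the hypothesis HPO) -/
theorem hHFO' : StHfo := by
  intro K hK h0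
  have h00 : (0 : ℂ) ∈ K := interior_subset h0
  have main := area_fin K hK h00
  have hpi := Real.pi_pos
  have ha : 0 ≤ area K := ENNReal.toReal_nonneg
  have hnn : ∀ n : ℕ, 0 ≤ (((n : ℝ) + 1) ^ 2 - 1) * ‖hf K (n + 1)‖ ^ 2 := by
    intro n
    have : (0 : ℝ) ≤ ((n : ℝ) + 1) ^ 2 - 1 := by nlinarith [(Nat.cast_nonneg n : (0 : ℝ) ≤ (n : ℝ))]
    positivity
  have hbd : ∀ N : ℕ, ∑ n ∈ Finset.range N, (((n : ℝ) + 1) ^ 2 - 1) * ‖hf K (n + 1)‖ ^ 2 ≤
      (‖hf K 0‖ ^ 2 - area K / Real.pi) / 2 := by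
    intro N
    have h1 := main N
    have h2 : area K / Real.pi ≤ ‖hf K 0‖ ^ 2 -
      2 * ∑ n ∈ Finset.range N, (((n : ℝ) + 1) ^ 2 - 1) * ‖hf K (n + 1)‖ ^ 2 := by
      rw [div_le_iff₀ hpi]; linarith
    linarith
  have hsum : Summable (fun n : ℕ => (((n : ℝ) + 1) ^ 2 - 1) * ‖hf K (n + 1)‖ ^ 2) :=
    summable_of_sum_range_le hnn hbd
  refine ⟨?_, ?_⟩
  · rw [← summable_nat_add_iff 2]
    have h1 : Summable (fun n : ℕ => (4 / 3 : ℝ) *
        ((((n + 1 : ℕ) : ℝ) + 1) ^ 2 - 1) * ‖hf K ((n + 1) + 1)‖ ^ 2) := by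
      have := ((summable_nat_add_iff 1).2 hsum).mul_left (4 / 3)
      refine this.congr ?_
      intro n
      ring
    refine Summable.of_nonneg_of_le (fun n => by positivity) (fun n => ?_) h1
    have h2 : (((n + 2 : ℕ) : ℝ)) ^ 2 ≤ 4 / 3 * ((((n + 1 : ℕ) : ℝ) + 1) ^ 2 - 1) := by
      push_cast
      nlinarith [(Nat.cast_nonneg n : (0 : ℝ) ≤ (n : ℝ))]
    exact mul_le_mul_of_nonneg_right h2 (by positivity)
  · have h2 : ∑' n : ℕ, (((n : ℝ) + 1) ^ 2 - 1) * ‖hf K (n + 1)‖ ^ 2 ≤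
        (‖hf K 0‖ ^ 2 - area K / Real.pi) / 2 := hsum.tsum_le_of_sum_range_le hbd
    have h3 : area K / Real.pi ≤ ‖hf K 0‖ ^ 2 -
        2 * ∑' n : ℕ, (((n : ℝ) + 1) ^ 2 - 1) * ‖hf K (n + 1)‖ ^ 2 := by linarith
    rw [div_le_iff₀ hpi] at h3
    linarith

/-- MODULE HFO -/
theorem hHFO (_h : StHpo) : StHfo := hHFO'

end Pool.Agent.Helper27.RC
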